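import Pool.Agent.Helper3.GU.SumL
import Pool.Graph.R_pool_sql_team_seeded_2aa45f1a.Q193.LT.Per

/-!
# Periods, Mumford-Tate groups and Feynman graphs

Let `K ⊂ ℂ` be a field that is algebraic over `ℚ`, and let `M` be the category of André motives over `K`,
a semisimple abelian category with Tate twists `N ↦ N(a)`. For a separated scheme `X` of finite type over
`ℚ` let `D.H i X` be the object of `M` given by the graded object of the weight filtration of the
cohomology with compact supports `H^i_c(X_K)`; for smooth projective `X` it is the motive `h^i(X_K)`.

`P` consists of the de Rham realization, the Betti realization, the comparison isomorphism and, for each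
motive `N`, the dimension of the motivic Galois group of `N`; `mt N` is the dimension of the Mumford-Tate
group of the Betti realization of `N`, which is a subgroup of the motivic Galois group. `GPCMT P mt N`
is the conjecture of question Q1 for `N` together with the property that Hodge classes are motivated up
to dimension: the transcendence degree of the field of periods of `N` is the dimension of the
Mumford-Tate group, and both are equal to the dimension of the motivic Galois group.

Every smooth projective variety over `K` is a union of connected components of `Y_K` for a smooth
projective variety `Y` over `ℚ`. So every André motive over `K` is a direct factor of a finite direct sum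
of Tate twists of motives `h^i(Y_K)`, and the property `GPCMT P mt` is true for all André motives over
`K` if and only if `SumsHave D (OfProjAll D) (GPCMT P mt)` is true (it is inherited by direct factors).

For a simple graph `G` with the vertices `0, …, n` and at most three neighbours of each vertex (as in the
Feynman graphs of `φ³`-theory) let `K_G` be the Kirchhoff polynomial (the determinant of the reduced
Laplacian matrix in the variables of the edges), and `Ψ_G` the first Symanzik polynomial (the determinant of
the expanded Laplacian matrix). The periods of the complement of `Ψ_G = 0` in the torus contain the
integrals `∫ ω / Ψ_G ^ m` (regularized Feynman integrals without masses and external momenta).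

**Theorem.** (1) For each separated scheme `X` of finite type over `ℚ`, for instance a smooth projective
one, there is a **finite** list `L` of such graphs, which depends only on `X` (not on `K` or on the category
of motives), such that: if the equalities `trdeg K(c_N) = dim MT(N) = dim G_mot(N)` are true for all finite
direct sums `N` of Tate twists of the motives `Gr^W H^i_c` of the point and of the complements of the
finitely many hypersurfaces `K_G = 0`, `G` in `L`, in the affine spaces (or of these hypersurfaces, or of
their complements in the tori, or of the complements of `Ψ_G = 0`, `G` in `L`, in the tori), then they are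
true for all finite direct sums of Tate twists of the motives `Gr^W H^i_c(X_K)`. Here it is not used that
smooth projective varieties generate.

(2) The equalities are true for all André motives `N` over `K` if and only if they are true for all finite
direct sums of Tate twists of the motives `Gr^W H^i_c(X_K)`, where `X` is a point or

* the complement of `K_G = 0` in the affine space, for these graphs `G`; or
* the hypersurface `K_G = 0`, for these graphs `G`; or
* the complement of `K_G = 0` in the torus, for these graphs `G`; or
* the complement of `Ψ_G = 0` in the torus, for these graphs `G`.
-/

set_option autoImplicit false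

open CategoryTheory AlgebraicGeometry Pool.Agent.Y116.UV Pool.Agent.Z125.UN Pool.Agent.Q193.LT
  Pool.Agent.Helper3.GU

universe v u

namespace Pool.Agent.Results.MP_57341d_ag.FeynmanMotives

/-- **Periods, Mumford-Tate groups and Feynman graphs.** See the explanations above. -/
theorem result :
    (∀ X : Sch ℚ, FT True X → ∃ L : List (Σ n : ℕ, SimpleGraph (Fin (n + 1))),
      (∀ G ∈ L, Subcubic G.2) ∧
        ∀ {K : Type} [Field K] [CharZero K] [Algebra.IsAlgebraic ℚ K] [Algebra K ℂ]
          {M : Type u} [Category.{v} M] [Abelian M] {D : CompactData ℚ M} (_ : IsMotives D)
          {P : PeriodData K M} {mt : M → ℕ} (_ : IsPeriodMT P mt),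
          (SumsHave D (OfList D L fun _ G => graphS ℚ G) (GPCMT P mt) ∨
            SumsHave D (OfList D L fun _ G => graphH ℚ G) (GPCMT P mt) ∨
            SumsHave D (OfList D L fun _ G => graphT ℚ G) (GPCMT P mt) ∨
            SumsHave D (OfList D L fun _ G => feynmanT ℚ G) (GPCMT P mt)) →
          SumsHave D (OfScheme D X) (GPCMT P mt)) ∧
    ∀ {K : Type} [Field K] [CharZero K] [Algebra.IsAlgebraic ℚ K] [Algebra K ℂ]
      {M : Type u} [Category.{v} M] [Abelian M] {D : CompactData ℚ M} (_ : IsMotives D)
      {P : PeriodData K M} {mt : M → ℕ} (_ : IsPeriodMT P mt),
      List.TFAE [SumsHave D (OfProjAll D) (GPCMT P mt),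
        SumsHave D (OfSubcubic D fun _ G => graphS ℚ G) (GPCMT P mt),
        SumsHave D (OfSubcubic D fun _ G => graphH ℚ G) (GPCMT P mt),
        SumsHave D (OfSubcubic D fun _ G => graphT ℚ G) (GPCMT P mt),
        SumsHave D (OfSubcubic D fun _ G => feynmanT ℚ G) (GPCMT P mt)] := by
  constructor
  · intro X hX
    obtain ⟨L, hL, h⟩ := list_sums frac_rat X hX
    exact ⟨L, hL, fun {_} _ _ _ _ {_} _ _ {_} hM {_ _} hP =>
      h hM.compact hM.semisimple (GPCMT.factor hP)⟩
  · intro _ _ _ _ _ _ _ _ _ h _ _ hP
    exact sums_cubic h.compact h.generated h.semisimple (GPCMT.factor hP) frac_rat

end Pool.Agent.Results.MP_57341d_ag.FeynmanMotives
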