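import Pool.Agent.Helper53.OS.Seq
import Pool.Graph.R_pool_sql_team_seeded_2aa45f1a.Q193.LT.Per

/-!
# Grothendieck's period conjecture and one sequence of configuration spaces

Let `K ⊆ ℚ̄ ⊂ ℂ` be a field and let `𝓜` be the Tannakian category of the André motives over `K`, which is
semisimple. For motives `N` and `N'` let `Gen N N'` be the statement that `N'` is in the tensor category `⟨N⟩`
generated by `N` (subquotients of finite direct sums of the motives `N^{⊗a} ⊗ (N^∨)^{⊗b}`). The schemes in
the following are separated schemes of finite type over `ℚ`, also if `K` is larger.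

* For a scheme `X`, a degree `n` and a twist `j`, put `H n j X = Gr^W_n H^n_c(X_K)(j)`. For smooth
  projective `X` this is `h^n(X_K)(j)`.
* For a smooth integral scheme `U` let `h U` be the direct sum of `ℚ(1)` and of the motives `W_n H^n(U_K)`,
  for all `n`. Here `W_n H^n(U_K)` is the part of the lowest weight in the cohomology, that is, the image of
  `h^n` of a smooth compactification of `U_K`.
* `Fine V` is the property that `V` is smooth and integral and that the restriction
  `W_n H^n(V(ℂ), ℚ) → W_n H^n(V'(ℂ), ℚ)` is injective for all nonempty open subschemes `V'` of `V` and all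
  `n`. It does not depend on `K`. Every integral scheme `X` has a nonempty open subscheme `V` with this
  property (`HasFine`): let `V` be smooth and so small that the kernels of the maps
  `H^n(X̄(ℂ), ℚ) → H^n(V(ℂ), ℚ)` do not grow for smaller open subschemes, where `X̄` is a smooth
  compactification of `V`.

A matroid `M` of rank three on the set `Fin 4 ⊕ Fin m` is **framed** if any three of the four elements of
`Fin 4` form a base; it is **simple** if any two elements are independent. Let `modS ℚ M` be the moduli
space over `ℚ` of the configurations of `m + 4` different points in the projective plane in which exactly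
the triples prescribed by `M` are collinear, modulo projective transformations: the four points of `Fin 4`
are the points of `e_1, e_2, e_3, e_1 + e_2 + e_3`, and the other ones have normalised coordinates.
`SmoothMod ℚ ⊤ M` says that `M` is simple and framed, and that `modS ℚ M` is integral and smooth.

Let `P` consist of the de Rham realization, the Betti realization, the comparison isomorphism and the
dimension `dm N` of the motivic Galois group of `N`; `mt N` is the dimension of the Mumford-Tate group of
`N`, and `tr N` is the transcendence degree of the field of periods. `GPCMT P mt N` is the statement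
`trdeg K(c_N) = dim MT(N) = dim G_mot(N)`: the conjecture of question Q1 for `N`, together with the property
that Hodge classes are motivated up to dimension.

**Theorem.** There is **one sequence** of simple framed matroids `M_0, M_1, M_2, …` of rank three with
smooth integral moduli spaces `U_i = modS ℚ M_i`, which does not depend on `K`, with the following
properties.

1. The sequence is cofinal: each integral separated scheme `X` of finite type over `ℚ` is dominated by `U_i`
   for all large `i`.
2. For each separated scheme `X` of finite type over `ℚ` there is `i₀`, which depends only on `X`, such that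
   for all `i ≥ i₀`, for all fields `K`, the motives `Gr^W_n H^n_c(X_K)(j)` (all `n` and `j`) are in the
   tensor category of the single motive `h U_i` over `K`.
3. For each `K` and each André motive `N` over `K` there is `i₀` such that `N` is in `⟨h U_i⟩` for all
   `i ≥ i₀`.
4. For each `K`: `trdeg K(c_N) = dim MT(N) = dim G_mot(N)` is true for **all** André motives `N` over `K` if
   and only if it is true for **infinitely many** of the motives `h U_i` over `K`. (So it is true for all
   of them or only for finitely many.)

Earlier reductions of conjectures of this kind (to graph hypersurfaces, to sparse matrices, to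
configuration spaces) need all finite direct sums of the motives of the schemes in a family, or at least
all members of a family; this is not obvious, since the conjecture is not inherited by direct sums and
tensor products.

The facts about André motives which are used are listed in `IsPureMotives` and `IsPeriods`. The rule for
dominant morphisms: if `V` is `Fine` and `U` is a smooth integral scheme with a dominant morphism to `V`, then
`W_n H^n(V_K) → W_n H^n(U_K)` is injective (some subscheme of `U` is finite étale over a nonempty open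
subscheme `V'` of `V`, and `W_n H^n(V_K) → H^n(V'_K)` is injective); the motives `H n j V` are twists of
duals of motives `W_m H^m(V_K)` by Poincaré duality, and so they are in `⟨h U⟩`.
-/

set_option autoImplicit false

open CategoryTheory AlgebraicGeometry Pool.Agent.Y116.UV Pool.Agent.Z125.UN Pool.Agent.Q193.LT
  Pool.Agent.Helper3.GU Pool.Agent.Helper13.RM Pool.Agent.Helper10.PC Pool.Agent.Helper53.OS

universe v u

namespace Pool.Agent.Results.MP_57341d_ag.OneSequence

/-- The properties of the category of André motives over `K` that are used; see the explanations above.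

* `serre`: `⟨N⟩` is closed under subobjects, quotients and (split) extensions;
* `half`: isomorphisms, `H n j ∅ = 0`, and the exactness of `H n j U → H n j X → H n j Z` for a closed
  subscheme `Z` of `X` and its complement `U`;
* `dominant`: the rule for dominant morphisms (`Dominates U V`: the scheme `U` is separated, of finite type,
  smooth and integral, and has a dominant morphism to `V`);
* `generated`: the motives `H n j Y` of the smooth projective schemes over `ℚ` generate. -/
structure IsPureMotives {𝓜 : Type u} [Category.{v} 𝓜] [Abelian 𝓜] (Fine : Sch ℚ → Prop)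
    (H : ℕ → ℤ → Sch ℚ → 𝓜) (h : Sch ℚ → 𝓜) (Gen : 𝓜 → 𝓜 → Prop) : Prop where
  serre : ∀ N, IsSerre (Gen N)
  half : ∀ n j, IsHalf (H n j)
  dominant : ∀ V : Sch ℚ, Fine V → ∀ U : Sch ℚ, Dominates U V → ∀ n j, Gen (h U) (H n j V)
  generated : ∀ S : 𝓜 → Prop, IsSerre S → (∀ Y : Sch ℚ, SmoothProj Y → ∀ n j, S (H n j Y)) →
    ∀ N, S N

/-- The standard facts on periods: the transcendence degree of the field of periods and the dimension of
the Mumford-Tate group of `N` are at most the dimension of the motivic Galois group; if `N'` is in `⟨N⟩`, then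
the kernel of the surjective map from the motivic Galois group of `N` to the one of `N'` has some dimension
`d`, and the transcendence degree of the field of periods and the dimension of the Mumford-Tate group for
`N` exceed those for `N'` by at most `d` (the comparison isomorphism is a point of the torsor of periods,
and the fibres of the map from the torsor of `N` to the torsor of `N'` are torsors under this kernel). -/
structure IsPeriods {K : Type} [Field K] [Algebra K ℂ] {𝓜 : Type u} [Category.{v} 𝓜]
    (P : PeriodData K 𝓜) (mt : 𝓜 → ℕ) (Gen : 𝓜 → 𝓜 → Prop) : Prop where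
  le : ∀ N, P.tr N ≤ P.dm N
  mt_le : ∀ N, mt N ≤ P.dm N
  drop : ∀ N N', Gen N N' → ∃ d : ℕ, P.dm N = P.dm N' + d ∧ P.tr N ≤ P.tr N' + d ∧ mt N ≤ mt N' + d

lemma IsPeriods.inherit {K : Type} [Field K] [Algebra K ℂ] {𝓜 : Type u} [Category.{v} 𝓜]
    {P : PeriodData K 𝓜} {mt : 𝓜 → ℕ} {Gen : 𝓜 → 𝓜 → Prop} (hP : IsPeriods P mt Gen) {N N' : 𝓜}
    (h : Gen N N') (hN : GPCMT P mt N) : GPCMT P mt N' := by
  obtain ⟨d, h1, h2, h3⟩ := hP.drop N N' h
  obtain ⟨h4, h5⟩ := hN
  have h6 := hP.mt_le N'
  have h7 : mt N' = P.dm N' := by omega
  refine ⟨?_, h7⟩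
  rw [h7]
  refine le_antisymm (hP.le N') ?_
  rw [h4, h5, h1, Nat.cast_add] at h2
  exact (Cardinal.add_le_add_iff_of_lt_aleph0 (Cardinal.natCast_lt_aleph0 (n := d))).mp h2

/-- **Grothendieck's period conjecture and one sequence of configuration spaces.** See the explanations
above. -/
theorem result {Fine : Sch ℚ → Prop} (hF : HasFine Fine) :
    ∃ M : ℕ → Mat, (∀ i, SmoothMod ℚ ⊤ (M i).2) ∧
      (∀ X : Sch ℚ, FT True X → IsIntegral X.left → ∃ i₀, ∀ i, i₀ ≤ i →
        Dominates (modS ℚ (M i).2) X) ∧
      (∀ X : Sch ℚ, FT True X → ∃ i₀, ∀ i, i₀ ≤ i →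
        ∀ {𝓜 : Type u} [Category.{v} 𝓜] [Abelian 𝓜] {H : ℕ → ℤ → Sch ℚ → 𝓜} {h : Sch ℚ → 𝓜}
          {Gen : 𝓜 → 𝓜 → Prop}, IsPureMotives Fine H h Gen →
          ∀ n j, Gen (h (modS ℚ (M i).2)) (H n j X)) ∧
      ∀ {𝓜 : Type u} [Category.{v} 𝓜] [Abelian 𝓜] {H : ℕ → ℤ → Sch ℚ → 𝓜} {h : Sch ℚ → 𝓜}
        {Gen : 𝓜 → 𝓜 → Prop}, IsPureMotives Fine H h Gen →
        (∀ N : 𝓜, ∃ i₀, ∀ i, i₀ ≤ i → Gen (h (modS ℚ (M i).2)) N) ∧
        ∀ {K : Type} [Field K] [CharZero K] [Algebra.IsAlgebraic ℚ K] [Algebra K ℂ]
          {P : PeriodData K 𝓜} {mt : 𝓜 → ℕ}, IsPeriods P mt Gen →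
          ((∀ N, GPCMT P mt N) ↔ {i | GPCMT P mt (h (modS ℚ (M i).2))}.Infinite) := by
  obtain ⟨M, hM, hdo, hs⟩ := exists_seq.{v, u} (presents_frac frac_rat) hF
  have key : ∀ X : Sch ℚ, FT True X → ∃ i₀, ∀ i, i₀ ≤ i →
        ∀ {𝓜 : Type u} [Category.{v} 𝓜] [Abelian 𝓜] {H : ℕ → ℤ → Sch ℚ → 𝓜} {h : Sch ℚ → 𝓜}
          {Gen : 𝓜 → 𝓜 → Prop}, IsPureMotives Fine H h Gen →
          ∀ n j, Gen (h (modS ℚ (M i).2)) (H n j X) := by
    intro X hX
    obtain ⟨i₀, hi⟩ := hs X hX
    refine ⟨i₀, fun i hi' {𝓜} _ _ {H h Gen} hT n j => ?_⟩
    exact hi i hi' (H := fun a : ℕ × ℤ => H a.1 a.2) (T := fun U => Gen (h U))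
      ⟨fun U => hT.serre (h U), fun a => hT.half a.1 a.2,
        fun V hV U hU a => hT.dominant V hV U hU a.1 a.2⟩ (n, j)
  refine ⟨M, hM, hdo, key, fun {𝓜} _ _ {H h Gen} hT => ?_⟩
  have hall : ∀ N : 𝓜, ∃ i₀, ∀ i, i₀ ≤ i → Gen (h (modS ℚ (M i).2)) N := by
    refine hT.generated _ ⟨fun N hN => ⟨0, fun i _ => (hT.serre _).zero N hN⟩, ?_⟩ fun Y hY n j => ?_
    · rintro X Y Z f g w he ⟨a, ha⟩ ⟨b, hb⟩
      exact ⟨max a b, fun i hi => (hT.serre _).mid f g w he (ha i (le_trans (le_max_left a b) hi))
        (hb i (le_trans (le_max_right a b) hi))⟩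
    · obtain ⟨i₀, hi⟩ := key Y hY.ft
      exact ⟨i₀, fun i hi' => hi i hi' hT n j⟩
  refine ⟨hall, fun {K} _ _ _ _ {P mt} hP => ⟨fun h1 => ?_, fun h1 N => ?_⟩⟩
  · have h2 : {i | GPCMT P mt (h (modS ℚ (M i).2))} = Set.univ :=
      Set.eq_univ_of_forall fun i => h1 _
    rw [h2]
    exact Set.infinite_univ
  · obtain ⟨i₀, hi⟩ := hall N
    obtain ⟨i, hi1, hi2⟩ := h1.exists_gt i₀
    exact hP.inherit (hi i hi2.le) hi1

end Pool.Agent.Results.MP_57341d_ag.OneSequence
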