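import Pool.Agent.Helper5.EqRankD

set_option autoImplicit false

/-!
# The adjoint motive of a motive of abelian type and the groups which contain the periods: the
# weight zero

Let `A` be an abelian variety over `ℚ̄` and let `M` be any André motive over `ℚ̄` in the tensor
category generated by `h^1(A)` and the Tate motives. (By theorems of André this class of motives,
for all `A`, contains the motives of products of curves, abelian varieties, K3 surfaces,
hyperkähler varieties, cubic fourfolds and Fermat hypersurfaces.) Let `G ⊆ GL(H_B(M))` be *any*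
algebraic group over `ℚ` with a torsor over `ℚ̄` which contains the comparison isomorphism `c_M`. The
period conjecture says that `c_M` is a generic point, over `ℚ̄`, of a torsor under the Mumford-Tate
group `MT(M)`, so that every such `G` contains `MT(M)`.

Let `Hg(M)` be the Hodge group of `M`, so that `MT(M)` is generated by `Hg(M)` and the weights, which
are central, and let `x ∈ Hg(M)(ℂ)` be *any* element which normalizes `G`, for example any element of
`G ∩ Hg(M)`.

**Theorem.** Let `W ≠ 0` be a subspace of the complexified Lie algebra of `Hg(M)` which is stable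
under the Lie algebra of `G ∩ MT(M)` and under `x` (for instance any subspace which is stable
under `G`, if `x` is in `G`). Then there is an element `Z ≠ 0` of `W` which commutes with `x`.

The group `MT(M)` has the property, and any group which contains it: every subspace `W` as in the
theorem is then an ideal. So this is a consequence of the period conjecture for `M`, or rather of its
torsor form, about the action of `G` on the adjoint motive of `M`, which can be proved although `G` is
not known. Take for `x` a general element of a maximal torus `T` of `G ∩ Hg(M)`. Then the theorem says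
that every nonzero subspace of `Lie Hg(M) ⊗ ℂ` which is stable under `G` contains a nonzero
vector of weight `0` for `T`. So if `G ⊆ MT(M)` is the smallest group with a torsor which contains
`c_M`, then all irreducible constituents of the representation of `G` on `Lie MT(M) ⊗ ℂ` (of the
de Rham-Betti object attached to the adjoint motive) have the weight zero. For instance they have odd
dimension, if the derived group of `G` is isogenous to `SL_2`; there are no constituents like the
standard representations of `SL_n` and `Sp_n` or the spin representations; the centre of `G` acts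
trivially, and if `G` is a torus then `MT(M)` is a torus. The elements `x` are arbitrary: they need
not be semisimple, and they need not be in the connected component of `G`, for example they can act on
`Lie G` by outer automorphisms.

It was shown in the file `CentralizersOfPeriods` that the elements of `Hg(M)(ℂ)` which commute
with `G` commute with `MT(M)`. Here the elements `x` normalize `G`, and they can be in `G`. The
criterion of `RankCriterion` (the group `G` contains `MT(M)`, if it contains the connected centralizer
of `x` in `Hg(M)`) has a similar proof; none of the two statements contains the other.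

## Motives

As `h^1(A)` is dual to `h^1(A)(1)`, the motive `M` is a direct factor of a sum of motives
`h^1(A) ^ {⊗ r i} (w i)`. Its Betti realization is a space of families of multilinear forms with
rational values, in `r i` variables in `H_1(A, ℚ)`, with a basis `B`. It is the image of a motivated
projector, and the realizations of motivated classes are Hodge classes and de Rham-Betti classes; so
it is stable under the Lie algebra `𝔤` of the endomorphisms of `H_1(A, ℚ)` which annihilate all
classes that are Hodge classes and de Rham-Betti classes (`InLie`), and under the weights. The de Rham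
realization has a basis which consists of combinations of products of elements of `H^1_dR(A / ℚ̄)`
with algebraic coefficients. The matrix `P` of the periods expresses it in terms of the basis
`(2 π i) ^ (w i) B` of the Betti realization (`IsMotive`). (By theorems of Deligne and André all
subspaces which are stable under `𝔤` and the weights are obtained from motives.) By the theorem of
Deligne all Hodge classes on abelian varieties are de Rham-Betti classes, so that `𝔤` is the Lie
algebra of the Hodge group of `A`, its image in `End(H_B(M))` is the Lie algebra of `Hg(M)`, and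
`Hg(M)(ℂ)`, a connected group, is generated by the exponentials of the complex combinations of the
elements of this image (`hodgeGroup`).

Nothing is assumed about periods: `AbVar` is the description of an abelian variety over `ℚ̄` by theta
functions (see `Pool/Agent/Y102/AVDefs.lean`, where it is explained why every abelian variety has it),
and the transcendence theorems which are used, the theorem of Schneider and Lang and the
transcendence of `π`, are proved in this repository.

## Proof

Let `ρ` be the action of `𝔤` on `M`, `𝔨` its kernel, and let `𝔮` be the set of the `X` in `𝔤` such that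
`ρ(X)` is in the Lie algebra of `G` up to a multiple of the weight. By the theorem of Schneider and
Lang `𝔮` acts semisimply on `H_1(A)` with the same commutant as `𝔤`, so the two Lie algebras generate
the same associative algebra `𝒜` (`Full`, `bic_PS`). We have `𝔤 = 𝔨 ⊕ 𝔨'`, where the ideal `𝔨'` commutes
with `𝔨`, and `x` lifts to an element `y` of `𝒜` which commutes with `𝔨` and acts on `𝔨' ⊗ ℂ` by
conjugation as `x` acts on `ρ(𝔤) ⊗ ℂ` (`tr_mem2`). So `y` normalizes `𝔮 ⊗ ℂ` (`hC_conj`).

The new point is a lemma on traces (`Pool.Agent.Helper5.TrKey.key`), which replaces the theory of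
root systems and the representation theory of reductive groups. Let `𝔮` be a set of matrices which is
stable under the conjugation by `y⁻¹`, and let `V` be a space of matrices which is stable under the
conjugation by `y` and under the brackets with the elements of `𝔮`, and in which no nonzero
element commutes with `y`. Then `tr(Z y X_1 ⋯ X_k) = 0` for all `Z` in `V` and `X_i` in `𝔮`. Proof by
induction on `k`: by induction applied to the elements `[X, Z]` of `V` one has
`tr(Z y X_1 ⋯ X_k) = tr(Z y (y⁻¹ X_k y) X_1 ⋯ X_{k-1})`, hence, after `k` steps,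
`tr(Z y X_1 ⋯ X_k) = tr(Z y (y⁻¹ X_1 ⋯ X_k y)) = tr(Z X_1 ⋯ X_k y)`. For `Z = y Z' y⁻¹ - Z'` this
is `0`, and all elements of `V` are of this form.

Apply this to the lift `V` of `W` to `𝔨' ⊗ ℂ`. If no nonzero element of `W` commutes with `x`, then no
nonzero element of `V` commutes with `y`, so the elements of `V` are orthogonal to `y 𝒜 = 𝒜`, which
contains `𝔤`, and `V = 0`, because the trace form is not degenerate on `𝔤`.
-/

open Module Matrix Pool.Agent.Y102 Pool.Agent.W516.DR Pool.Agent.H204R3.GP

noncomputable section

namespace Pool.Agent.Results.MP_57341d_ag.WeightZero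

variable {g : ℕ} (A : AbVar g)

/-! ### The Lie algebra -/

/-- The multilinear forms in `2m` variables in the rational homology. -/
abbrev Form (m : ℕ) : Type := MultilinearMap ℚ (fun _ : Fin m × Fin 2 => A.H1) ℚ

/-- `φ` is a de Rham-Betti class in `H^1(A) ^ {⊗ 2m} (m)`. -/
def IsDRB {m : ℕ} (φ : Form A m) : Prop :=
  IsDeRhamBettiForm QBar A.dR (2 * Real.pi * Complex.I) m φ

/-- `φ` is a Hodge class in `H^1(A) ^ {⊗ 2m} (m)`. -/
def IsHodge {m : ℕ} (φ : Form A m) : Prop := IsHodgeTensor (A.per : A.H1 →+ (Fin g → ℂ)) φ

/-- The endomorphism `X` annihilates the form `φ` (as a derivation). -/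
def Annihilates {m : ℕ} (X : Module.End ℚ A.H1) (φ : Form A m) : Prop :=
  ∀ v, ∑ k, φ (Function.update v k (X (v k))) = 0

/-- `X` is in the Lie algebra `𝔤`: it annihilates all classes that are Hodge classes and
de Rham-Betti classes. -/
def InLie (X : Module.End ℚ A.H1) : Prop :=
  ∀ (m : ℕ) (φ : Form A m), IsHodge A φ → IsDRB A φ → Annihilates A X φ

/-! ### Motives -/

variable {s n : ℕ} (r : Fin s → ℕ) (w : Fin s → ℤ)

/-- The Betti realization of the sum of the motives `h^1(A) ^ {⊗ r i} (w i)`: families of multilinear
forms in `r i` variables in the rational homology. -/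
abbrev Tensors : Type := ∀ i : Fin s, MultilinearMap ℚ (fun _ : Fin (r i) => A.H1) ℚ

variable {A r}

/-- The endomorphism `X` acts, as a derivation, on the elements of the basis `B` by the matrix `M`. -/
def IsLieMatrix (B : Fin n → Tensors A r) (X : Module.End ℚ A.H1)
    (M : Matrix (Fin n) (Fin n) ℚ) : Prop :=
  ∀ a i v, ∑ k, B a i (Function.update v k (X (v k))) = ∑ b, M b a * B b i v

/-- `N` is the matrix of the operator which is the multiplication by the weight `r i - 2 w i` on the
summand with the index `i`. -/
def IsWeightMatrix (B : Fin n → Tensors A r) (N : Matrix (Fin n) (Fin n) ℚ) : Prop :=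
  ∀ a i v, ((r i : ℚ) - 2 * w i) * B a i v = ∑ b, N b a * B b i v

/-- The subspace with the basis `B` is the Betti realization of a direct factor `M` of the sum of the
motives `h^1(A) ^ {⊗ r i} (w i)`, and `P` is the matrix of the periods of `M` for the basis `B` and for
some basis of the de Rham realization of `M` over `ℚ̄`. -/
structure IsMotive (B : Fin n → Tensors A r) (P : Matrix (Fin n) (Fin n) ℂ) : Prop where
  /-- `B` is a basis of a subspace -/
  basis : LinearIndependent ℚ B
  /-- the subspace is stable under `𝔤` -/
  lie : ∀ X, InLie A X → ∃ M : Matrix (Fin n) (Fin n) ℚ, IsLieMatrix B X M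
  /-- the subspace is stable under the weights -/
  weight : ∃ N : Matrix (Fin n) (Fin n) ℚ, IsWeightMatrix w B N
  /-- the de Rham realization has a basis of elements with algebraic coefficients in terms of the
  tensor products of the elements of the basis of `H^1_dR(A / ℚ̄)` -/
  deRham : ∃ c : Fin n → ∀ i : Fin s, (Fin (r i) → Fin g ⊕ Fin g) → ℂ,
    (∀ a i J, IsAlgebraic ℚ (c a i J)) ∧ ∀ a i (v : Fin (r i) → A.H1),
      ∑ J, c a i J * ∏ k, A.dR (J k) (v k) =
        (2 * Real.pi * Complex.I) ^ (w i) * ∑ b, P b a * (B b i v : ℂ)
  /-- the matrix of the periods is invertible -/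
  det : P.det ≠ 0

/-- The complex span of the matrices of the elements of `𝔤`: the Lie algebra of `Hg(M)(ℂ)`. -/
def complexLie (B : Fin n → Tensors A r) : Submodule ℂ (Matrix (Fin n) (Fin n) ℂ) :=
  Submodule.span ℂ {Z | ∃ X, InLie A X ∧ ∃ M : Matrix (Fin n) (Fin n) ℚ, IsLieMatrix B X M ∧
    Z = M.map fun q => (q : ℂ)}

/-- The complex points of the Hodge group of `M`: the group generated by the exponentials of the
elements of its Lie algebra. -/
def hodgeGroup (B : Fin n → Tensors A r) : Subgroup (GL (Fin n) ℂ) :=
  Subgroup.closure {x | ∃ Z ∈ complexLie B,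
    (x : Matrix (Fin n) (Fin n) ℂ) = NormedSpace.exp Z}

/-! ### Algebraic groups and torsors -/

/-- A subgroup of `GL_R(ℂ)` defined by polynomials with rational coefficients. -/
def IsAlgebraicSubgroup {R : Type} [Fintype R] [DecidableEq R] (G : Subgroup (GL R ℂ)) : Prop :=
  ∃ I : Set (MvPolynomial (R × R) ℚ), ∀ x : GL R ℂ, x ∈ G ↔
    ∀ p ∈ I, MvPolynomial.aeval (fun b : R × R => (x : Matrix R R ℂ) b.1 b.2) p = 0

/-- The torsor `G · T⁻¹` of `G`: the matrices `F` such that `F T` is an element of `G`. It is
defined over `ℚ̄` if `T` is a matrix with algebraic entries. -/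
def torsor (G : Subgroup (GL (Fin n) ℂ)) (T : Matrix (Fin n) (Fin n) ℂ) :
    Set (Matrix (Fin n) (Fin n) ℂ) :=
  {F | ∃ x ∈ G, (x : Matrix (Fin n) (Fin n) ℂ) = F * T}

/-- The matrix `Z` is in the Lie algebra of `G`: the one-parameter subgroup is contained in `G`. -/
def IsTangent (G : Subgroup (GL (Fin n) ℂ)) (Z : Matrix (Fin n) (Fin n) ℂ) : Prop :=
  ∀ t : ℂ, ∃ y ∈ G, (y : Matrix (Fin n) (Fin n) ℂ) = NormedSpace.exp (t • Z)

/-- The space `W` is stable under the Lie algebra of `G ∩ MT(M)`. The elements of the Lie algebra of
`MT(M)` are the `Y + c N`, where `Y` is in the Lie algebra of `Hg(M)` and `N` is the weight operator,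
which commutes with the elements of `W`. -/
def IsStable (G : Subgroup (GL (Fin n) ℂ)) (B : Fin n → Tensors A r)
    (W : Submodule ℂ (Matrix (Fin n) (Fin n) ℂ)) : Prop :=
  ∀ Y ∈ complexLie B, ∀ (N : Matrix (Fin n) (Fin n) ℚ) (c : ℂ), IsWeightMatrix w B N →
    IsTangent G (Y + c • N.map fun q => (q : ℂ)) → ∀ Z ∈ W, Y * Z - Z * Y ∈ W

/-- **Theorem.** Let `M` be a motive in the tensor category generated by `h^1(A)` and the Tate motives,
with the matrix `P` of periods, and let `G` be an algebraic group over `ℚ` with a torsor over `ℚ̄`
which contains `P`. Let `x` be an element of the Hodge group of `M` which normalizes `G`, and let `W`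
be a nonzero subspace of the complexified Lie algebra of the Hodge group which is stable under the Lie
algebra of `G ∩ MT(M)` and under the conjugation by `x`. Then a nonzero element of `W` commutes
with `x`. -/
theorem result {g s n : ℕ} (A : AbVar g) (r : Fin s → ℕ) (w : Fin s → ℤ)
    (B : Fin n → Tensors A r) (P : Matrix (Fin n) (Fin n) ℂ) (hM : IsMotive w B P)
    (G : Subgroup (GL (Fin n) ℂ)) (hG : IsAlgebraicSubgroup G) (T : Matrix (Fin n) (Fin n) ℂ)
    (hT : ∀ i j, IsAlgebraic ℚ (T i j)) (hP : P ∈ torsor G T)
    (x : GL (Fin n) ℂ) (hx : x ∈ hodgeGroup B) (hn : ∀ y, y ∈ G ↔ x * y * x⁻¹ ∈ G)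
    (W : Submodule ℂ (Matrix (Fin n) (Fin n) ℂ)) (hW : W ≤ complexLie B) (h0 : W ≠ ⊥)
    (hs : IsStable w G B W) (hxW : ∀ Z ∈ W, (x : Matrix (Fin n) (Fin n) ℂ) * Z *
      ((x⁻¹ : GL (Fin n) ℂ) : Matrix (Fin n) (Fin n) ℂ) ∈ W) :
    ∃ Z ∈ W, Z ≠ 0 ∧ (x : Matrix (Fin n) (Fin n) ℂ) * Z = Z * x := by
  by_contra hcon
  push Not at hcon
  apply h0
  have hrelL : ∀ X M, N208.AM.Rel B X M ↔ IsLieMatrix B X M := by
    intro X M
    constructor
    · intro h a i v
      have h1 := congrArg (fun φ : MultilinearMap ℚ (fun _ : Fin (r i) => A.H1) ℚ => φ v) (h a i)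
      simp only [N208.AM.dact_apply, _root_.sum_apply, _root_.smul_apply, smul_eq_mul] at h1
      exact h1
    · intro h a i
      refine MultilinearMap.ext fun v => ?_
      rw [N208.AM.dact_apply, _root_.sum_apply, h a i v]
      rfl
  have hwtL : ∀ N, N208.AM.WRel w B N ↔ IsWeightMatrix w B N := by
    intro N
    constructor
    · intro h a i v
      have h1 := congrArg (fun φ : MultilinearMap ℚ (fun _ : Fin (r i) => A.H1) ℚ => φ v) (h a i)
      simp only [_root_.sum_apply, _root_.smul_apply, smul_eq_mul] at h1
      exact h1
    · intro h a i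
      refine MultilinearMap.ext fun v => ?_
      rw [_root_.smul_apply, _root_.sum_apply, smul_eq_mul, h a i v]
      rfl
  obtain ⟨hM', Wt, hWt⟩ : N208.AM.Mot w B P ∧ ∃ Wt, N208.AM.WRel w B Wt := by
    obtain ⟨N, hN⟩ := hM.weight
    refine ⟨⟨hM.basis, fun X hX => ?_, ⟨N, (hwtL N).2 hN⟩, hM.det, hM.deRham⟩, N, (hwtL N).2 hN⟩
    obtain ⟨M, h⟩ := hM.lie X hX
    exact ⟨M, (hrelL X M).2 h⟩
  have hdet : T.det ≠ 0 := by
    obtain ⟨x, -, hxT⟩ := hP
    intro h0
    have h1 : (x : Matrix (Fin n) (Fin n) ℂ).det = 0 := by
      rw [hxT, Matrix.det_mul, h0, mul_zero]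
    exact (Matrix.GeneralLinearGroup.det x).ne_zero h1
  obtain ⟨T', h1, h2⟩ := Pool.Agent.R917.alg_inv hT hdet
  obtain ⟨z, hz, hzT⟩ := hP
  have hgrp := Pool.Agent.R917.algGrp_of hG
  have hH : N208.AM.PtM P {M | ∃ x ∈ G, (x : Matrix (Fin n) (Fin n) ℂ) = M} :=
    ⟨hgrp, T, T', h1, h2, z, hz, hzT⟩
  have hSC : complexLie B = Helper5.ER.SC B := by
    unfold complexLie Helper5.ER.SC
    congr 1
    ext M
    constructor
    · rintro ⟨X, hX, Mq, hMq, rfl⟩
      exact ⟨X, hX, Mq, (hrelL _ _).2 hMq, rfl⟩
    · rintro ⟨X, hX, Mq, hMq, rfl⟩
      exact ⟨X, hX, Mq, (hrelL _ _).1 hMq, rfl⟩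
  have hx' : x ∈ N208.AD.HG B := by
    unfold hodgeGroup at hx
    rw [hSC] at hx
    exact hx
  have hq := N208.AM.qM_full hM' hWt hH
  have hn' : ∀ y ∈ G, x⁻¹ * y * (x⁻¹)⁻¹ ∈ G := by
    intro y hy
    rw [hn]
    have e1 : x * (x⁻¹ * y * (x⁻¹)⁻¹) * x⁻¹ = y := by group
    rwa [e1]
  have hx'' := Subgroup.inv_mem _ hx'
  obtain ⟨x₀, ⟨y, e1, e2, e3⟩, e4, e5⟩ := Helper5.ER.tr_mem2 hM' hx''
  have hS : Helper5.ER.Sit (Wt := Wt) B {M | ∃ x ∈ G, (x : Matrix (Fin n) (Fin n) ℂ) = M}
      x⁻¹ y x₀ := ⟨e1, e2, e3, e4, e5, N208.AD.HG_wt hM' hWt hx'',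
    fun Z hZ d => Helper5.ER.stab_conj hgrp hn' hZ d⟩
  rw [Submodule.eq_bot_iff]
  refine Helper5.ER.part1 hM' hq hS (hW.trans hSC.le) (fun Y hY c hc Z hZ => ?_)
    (fun Z hZ => ?_) fun Z hZ hZx => ?_
  · refine hs Y (hSC ▸ hY) Wt c ((hwtL Wt).1 hWt) (fun t => ?_) Z hZ
    exact Pool.Agent.R917.exp_mem hgrp fun d => (hc d).smul t
  · have h3 := hxW Z hZ
    rw [inv_inv]
    exact h3
  · by_contra hne
    refine hcon Z hZ hne ?_
    calc (x : Matrix (Fin n) (Fin n) ℂ) * Z
        = x * (Z * ((x⁻¹ : GL (Fin n) ℂ) : Matrix (Fin n) (Fin n) ℂ)) * x := by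
          rw [mul_assoc, mul_assoc, Units.inv_mul, mul_one]
      _ = x * (((x⁻¹ : GL (Fin n) ℂ) : Matrix (Fin n) (Fin n) ℂ) * Z) * x := by rw [hZx]
      _ = Z * x := by rw [← mul_assoc, Units.mul_inv, one_mul]

end Pool.Agent.Results.MP_57341d_ag.WeightZero
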